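import Pool.Agent.MP_d3ab35_lc.H54.Main

set_option autoImplicit false

namespace Pool.Agent.Results.MP_d3ab35_lc.BarrierBPP

open Pool.Agent.MP_d3ab35_lc.H50 Pool.Agent.MP_d3ab35_lc.H19 Pool.Agent.MP_d3ab35_lc.H54

/-- For every admissible bound `f` and every encoding of algebraic queries there are an oracle `O`
and a low degree extension `P` of it (multilinear in characteristic two) such that, with access to
both, the two sides of the hypothesis WSC hold and `EXP` is contained in `P/poly` and even in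
`BPP`; the simulating machines need only `O`. -/
theorem result : Adm (fun n => 2 ^ n.size.sqrt) ∧
    ∀ (f : ℕ → ℕ), Adm f →
    ∀ (ι : Type) (F : ι → Type) [∀ i, Field (F i)] [∀ i, Finite (F i)]
      (idx : List Bool → ι) (dim : List Bool → ℕ) (pt : ∀ s, Fin (dim s) → F (idx s))
      (out : ∀ s, F (idx s) → Bool), (∀ s, dim s ≤ s.length) →
      (∀ s, Nat.card (F (idx s)) ≤ 2 ^ (s.length + 1)) →
    ∃ (O : List Bool → Bool) (P : ∀ (m : ℕ) (i : ι), MvPolynomial (Fin m) (F i)),
      (∀ m i (x : Fin m → Bool), MvPolynomial.eval (fun l => if x l then 1 else 0) (P m i) =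
        if O (List.ofFn x) then 1 else 0) ∧
      (∀ m i l, (P m i).degreeOf l ≤ 2) ∧
      (∀ m i l, CharP (F i) 2 → (P m i).degreeOf l ≤ 1) ∧
      ∀ B, B = join O (fun s => out s (MvPolynomial.eval (pt s) (P (dim s) (idx s)))) →
        (NPO B = Beta O f ∧ NPO B = Beta B f) ∧
        (∃ S, Sparse S ∧ ∀ L ∈ NPO B, PO (join O S) L ∧ PO (join B S) L) ∧
        (EXPO B ⊆ PPolyO O ∧ EXPO B ⊆ PPolyO B) ∧ EXPO B ⊆ BPPO O ∧ EXPO B ⊆ BPPO B :=
  ⟨adm_ff, fun f hf _ F _ _ idx dim pt out h1 h2 =>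
    Pool.Agent.MP_d3ab35_lc.H54.main f hf F idx dim pt out h1 h2⟩

end Pool.Agent.Results.MP_d3ab35_lc.BarrierBPP
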